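import Pool.Agent.Y68.CH.CRAa

/-!
# Critical points with parameters, absolute constants (job CB3-H-CRA)

Light edit of `Pool/Agent/Y784/CB/CR.lean` of helper784.
-/

set_option autoImplicit false

namespace Pool.Agent.Y68.CH

open Finset Filter Topology Metric
open Pool.Agent.W711.HT Pool.Agent.Y472
open Pool.Agent.Y784.CB (fp_deriv Rc_eq Rc_open Rc_convex bx_eq bx_open bx_convex Rc_add Rc_norm
  Rc_mono Rc_neg rs rs_ex ex_rs ex_mem rs_mem Bx_mono rs_update up_mem fderiv_bd lip_bd S_rs D_rs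
  Cr cr_iff two_pi_div_le norm_coef part fderiv_sum chain part_bd D_zero D_ev D_re sum_zeta im_bd)
open scoped Real

theorem S_step {L : ℕ} {R c B p₀ B' : ℝ} {S : (ℕ → ℂ) → ℂ} {D : ℕ → (ℕ → ℂ) → ℂ}
    (hA : PotA L R c B p₀ B' S D) {ψ : ℕ → ℂ} (hψ : ψ ∈ Bx L (R / 2)) {m : ℕ} (hm : m < L) {w : ℂ}
    (hw : w ∈ Rc (R / 2) (R / 2)) :
    ‖S (Function.update ψ m w) - S ψ‖ ≤ B * ‖w - ψ m‖ := by
  have hR := hA.pot.hR.1
  have h1 := Convex.norm_image_sub_le_of_norm_hasDerivWithin_le (𝕜 := ℂ)
    (f := fun w => S (Function.update ψ m w)) (f' := fun w => D m (Function.update ψ m w))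
    (s := Rc (R / 2) (R / 2)) (C := B) (x := ψ m) (y := w) (fun x hx => ?_) (fun x hx => ?_)
    (Rc_convex _ _) (hψ m hm) hw
  · simpa using h1
  · have h2 : Function.update ψ m x ∈ Bx L R := Bx_mono (by linarith) (up_mem hψ hx)
    have h3 := hA.pot.der _ h2 m hm
    simp only [Function.update_idem, Function.update_self] at h3
    exact h3.hasDerivWithinAt
  · exact hA.dbd _ (Bx_mono (by linarith) (up_mem hψ hx)) m hm

theorem S_diffA {L : ℕ} {R c B p₀ B' : ℝ} {S : (ℕ → ℂ) → ℂ} {D : ℕ → (ℕ → ℂ) → ℂ}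
    (hA : PotA L R c B p₀ B' S D) {j : ℕ} (hj : j ≤ L) {ψ y : ℕ → ℂ} (hψ : ψ ∈ Bx L (R / 2))
    (hy : y ∈ Bx L (R / 2)) (h : ∀ i, j ≤ i → y i = ψ i) :
    ‖S y - S ψ‖ ≤ ∑ i ∈ range j, B * ‖y i - ψ i‖ := by
  have key : ∀ m ≤ j, ‖S (fun i => if i < m then y i else ψ i) - S ψ‖ ≤
      ∑ i ∈ range m, B * ‖y i - ψ i‖ := by
    intro m
    induction m with
    | zero =>
      intro _
      simp
    | succ m ih =>
      intro hm
      have hmL : m < L := by omega
      set η : ℕ → ℂ := fun i => if i < m then y i else ψ i with hη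
      have hηm : η ∈ Bx L (R / 2) := by
        intro i hi
        by_cases him : i < m
        · simp only [hη, him, if_true]; exact hy i hi
        · simp only [hη, him, if_false]; exact hψ i hi
      have e1 : (fun i => if i < m + 1 then y i else ψ i) = Function.update η m (y m) := by
        funext i
        by_cases him : i = m
        · subst him
          simp
        · rw [Function.update_of_ne him]
          by_cases h1 : i < m
          · simp [hη, h1, Nat.lt_succ_of_lt h1]
          · have h2 : ¬ i < m + 1 := by omega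
            simp [hη, h1, h2]
      have e2 := S_step hA hηm hmL (hy m hmL)
      have e3 : η m = ψ m := by simp [hη]
      rw [e3] at e2
      rw [e1, sum_range_succ]
      have e4 : S (Function.update η m (y m)) - S ψ =
          (S η - S ψ) + (S (Function.update η m (y m)) - S η) := by ring
      rw [e4]
      exact (norm_add_le _ _).trans (add_le_add (ih (by omega)) e2)
  have h1 := key j le_rfl
  have e : (fun i => if i < j then y i else ψ i) = y := by
    funext i
    by_cases hi : i < j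
    · simp [hi]
    · simp only [hi, if_false]
      exact (h i (not_lt.1 hi)).symm
  rw [e] at h1
  exact h1

theorem cra : S_CRA := by
  classical
  intro R c B p₀
  by_cases hpar : 0 < R ∧ 0 < c ∧ 0 < B ∧ 0 < p₀
  swap
  · refine ⟨1, 1, one_pos, one_pos, fun L B' S D hA => ?_⟩
    exact absurd ⟨hA.pot.hR.1, hA.pot.hc, hA.hB, hA.hp⟩ hpar
  obtain ⟨hR, hc, hB, hp⟩ := hpar
  have hπ := Real.pi_pos
  set Λ : ℝ := 4 * B / R with hΛ
  have hΛ0 : 0 < Λ := by positivity
  set C : ℝ := 4 / c + 2 * π * (1 + B) + π * (1 + B) ^ 2 + B * (2 * π * (1 + B)) +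
    4 * π ^ 2 * Λ * (1 + B) + 1 with hC
  have hC0 : 0 < C := by positivity
  have c1 : 0 < 4 / c := by positivity
  have c2 : 0 < 2 * π * (1 + B) := by positivity
  have c3 : 0 < π * (1 + B) ^ 2 := by positivity
  have c4 : 0 < B * (2 * π * (1 + B)) := by positivity
  have c5 : 0 < 4 * π ^ 2 * Λ * (1 + B) := by positivity
  set M : ℝ := 1 + 8 * C / R + 32 * π * B / R + 2 * C / p₀ + 8 * π * Λ ^ 2 / c with hM
  have m1 : 0 < 8 * C / R := by positivity
  have m2 : 0 < 32 * π * B / R := by positivity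
  have m4 : 0 < 2 * C / p₀ := by positivity
  have m5 : 0 < 8 * π * Λ ^ 2 / c := by positivity
  have hM0 : 0 < M := by positivity
  refine ⟨C, M, hC0, hM0, fun L B' S D hA a haM => ?_⟩
  have hP := hA.pot
  have hab : ∀ i < L, 0 < |(a i : ℝ)| := fun i hi => hM0.trans_le (haM i hi)
  have ha0 : ∀ i < L, (a i : ℝ) ≠ 0 := fun i hi => abs_pos.1 (hab i hi)
  have ha : ∀ i < L, 32 * π * B / R ≤ |(a i : ℝ)| := fun i hi => by
    have := haM i hi
    linarith
  have ha3 : ∀ i < L, C / |(a i : ℝ)| < R / 4 := fun i hi => by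
    rw [div_lt_iff₀ (hab i hi)]
    have h1 : 8 * C / R < |(a i : ℝ)| := by
      have := haM i hi
      linarith
    rw [div_lt_iff₀ hR] at h1
    nlinarith
  have ha2 : ∀ i < L, 2 * π * (1 + B) / |(a i : ℝ)| ≤ R / 4 := fun i hi => by
    refine (div_le_div_of_nonneg_right ?_ (hab i hi).le).trans (ha3 i hi).le
    linarith
  have hex : ∀ j ≤ L, ∀ ψ ∈ Bx L (R / 2), ∃ y : ℕ → ℂ, (∀ i, j ≤ i → y i = ψ i) ∧
      y ∈ Bx L (R / 2) ∧ Cr D a j y := fun j hj ψ hψ => crit_exA hA hj ha ha0 ha2 hψ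
  set zz : ℕ → (ℕ → ℂ) → ℕ → ℂ := fun j ψ =>
    if h : j ≤ L ∧ ψ ∈ Bx L (R / 2) then Classical.choose (hex j h.1 ψ h.2) else ψ with hzz
  have hz : ∀ j ≤ L, ∀ ψ ∈ Bx L (R / 2), (∀ i, j ≤ i → zz j ψ i = ψ i) ∧
      zz j ψ ∈ Bx L (R / 2) ∧ Cr D a j (zz j ψ) := by
    intro j hj ψ hψ
    have e : zz j ψ = Classical.choose (hex j hj ψ hψ) := dif_pos ⟨hj, hψ⟩
    rw [e]
    exact Classical.choose_spec (hex j hj ψ hψ)
  have huniq : ∀ j ≤ L, ∀ ψ ∈ Bx L (R / 2), ∀ y ∈ Bx L (R / 2), (∀ i, j ≤ i → y i = ψ i) →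
      Cr D a j y → y = zz j ψ := by
    intro j hj ψ hψ y hy h1 h2
    obtain ⟨h3, h4, h5⟩ := hz j hj ψ hψ
    exact crit_uniqA hA hj ha ha0 h4 hy h5 h2 fun i hi => by rw [h1 i hi, h3 i hi]
  have hBxR : ∀ ψ ∈ Bx L (R / 2), ψ ∈ Bx L R := fun ψ h => Bx_mono (by linarith) h
  -- the formula
  have hform : ∀ j ≤ L, ∀ ψ ∈ Bx L (R / 2), ∀ i < j,
      zz j ψ i = -(2 * π / ((a i : ℝ) : ℂ)) * (1 - Complex.I * D i (zz j ψ)) := by
    intro j hj ψ hψ i hi
    exact (cr_iff (ha0 i (hi.trans_le hj))).1 (by simpa using (hz j hj ψ hψ).2.2 i hi)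
  have hnorm : ∀ j ≤ L, ∀ ψ ∈ Bx L (R / 2), ∀ i < j,
      ‖zz j ψ i‖ ≤ 2 * π * (1 + B) / |(a i : ℝ)| := by
    intro j hj ψ hψ i hi
    have hiL := hi.trans_le hj
    rw [hform j hj ψ hψ i hi, norm_mul, norm_neg, norm_coef, div_mul_eq_mul_div]
    refine div_le_div_of_nonneg_right ?_ (hab i hiL).le
    refine mul_le_mul_of_nonneg_left ?_ (by positivity)
    refine (norm_sub_le _ _).trans ?_
    rw [norm_mul, Complex.norm_I, one_mul, norm_one]
    have := hA.dbd _ (hBxR _ (hz j hj ψ hψ).2.1) i hiL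
    linarith
  -- paths
  have hpath : ∀ j ≤ L, ∀ ψ ∈ Bx L (R / 2), ∀ i, j ≤ i → i < L → ∃ ζ : ℕ → ℂ,
      (∀ l < L, HasDerivAt (fun w => zz j (Function.update ψ i w) l) (ζ l) (ψ i)) ∧
      (∀ k, j ≤ k → k < L → ζ k = if k = i then 1 else 0) ∧
      ∀ k < j, ‖ζ k‖ ≤ 16 * π * B / (R * |(a k : ℝ)|) := by
    intro j hj ψ hψ i hji hi
    refine path_derivA hA hj ha ha0 hi hji (y := fun w => zz j (Function.update ψ i w)) ?_
    filter_upwards [(Rc_open (R / 2) (R / 2)).mem_nhds (hψ i hi)] with w hw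
    exact hz j hj _ (up_mem hψ hw)
  have hclose : ∀ j ≤ L, ∀ ψ ∈ Bx L (R / 2),
      ‖Uj S a j (zz j ψ) - S (fun i => if i < j then 0 else ψ i)‖ ≤
        ∑ i ∈ range j, C / |(a i : ℝ)| := by
    intro j hj ψ hψ
    obtain ⟨h3, h4, h5⟩ := hz j hj ψ hψ
    set y := zz j ψ with hy
    set ψ₀ : ℕ → ℂ := fun i => if i < j then 0 else ψ i with hψ₀
    have hψ₀m : ψ₀ ∈ Bx L (R / 2) := by
      intro i hi
      by_cases hij : i < j
      · simp only [hψ₀, hij, if_true]
        exact Rc_norm (by rw [norm_zero]; linarith)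
      · simp only [hψ₀, hij, if_false]
        exact hψ i hi
    have e1 := S_diffA hA hj hψ₀m h4 (fun i hi => by
      simp only [hψ₀, not_lt.2 hi, if_false]
      exact h3 i hi)
    have e3 : ‖∑ i ∈ range j, (Complex.I * a i * y i ^ 2 / (4 * π) + Complex.I * y i)‖ ≤
        ∑ i ∈ range j, (π * (1 + B) ^ 2 + 2 * π * (1 + B)) / |(a i : ℝ)| := by
      refine (norm_sum_le _ _).trans (Finset.sum_le_sum fun i hi => ?_)
      have hij := Finset.mem_range.1 hi
      have hn := hnorm j hj ψ hψ i hij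
      have habs := hab i (hij.trans_le hj)
      refine (norm_add_le _ _).trans ?_
      rw [add_div]
      refine add_le_add ?_ ?_
      · have h6 : ‖Complex.I * a i * y i ^ 2 / (4 * π)‖ = |(a i : ℝ)| * ‖y i‖ ^ 2 / (4 * π) := by
          rw [norm_div, norm_mul, norm_mul, Complex.norm_I, one_mul, norm_pow, norm_mul,
            Complex.norm_real, Real.norm_eq_abs, abs_of_pos hπ, Complex.norm_ofNat,
            Complex.norm_intCast]
        rw [h6, div_le_div_iff₀ (by positivity) habs]
        have h7 : ‖y i‖ * |(a i : ℝ)| ≤ 2 * π * (1 + B) := (le_div_iff₀ habs).1 hn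
        have h8 : 0 ≤ ‖y i‖ * |(a i : ℝ)| := by positivity
        calc |(a i : ℝ)| * ‖y i‖ ^ 2 * |(a i : ℝ)| = (‖y i‖ * |(a i : ℝ)|) ^ 2 := by ring
          _ ≤ (2 * π * (1 + B)) ^ 2 := pow_le_pow_left₀ h8 h7 2
          _ = π * (1 + B) ^ 2 * (4 * π) := by ring
      · rw [norm_mul, Complex.norm_I, one_mul]
        exact hn
    have e4 : Uj S a j y - S ψ₀ = (S y - S ψ₀) +
        ∑ i ∈ range j, (Complex.I * a i * y i ^ 2 / (4 * π) + Complex.I * y i) := by
      unfold Uj; ring
    rw [e4]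
    refine (norm_add_le _ _).trans ?_
    have e5 : ‖S y - S ψ₀‖ ≤ ∑ i ∈ range j, B * (2 * π * (1 + B)) / |(a i : ℝ)| := by
      refine e1.trans (Finset.sum_le_sum fun i hi => ?_)
      have hij := Finset.mem_range.1 hi
      rw [mul_div_assoc]
      refine mul_le_mul_of_nonneg_left ?_ hB.le
      simp only [hψ₀, hij, if_true, sub_zero]
      exact hnorm j hj ψ hψ i hij
    refine (add_le_add e5 e3).trans ?_
    rw [← Finset.sum_add_distrib]
    refine Finset.sum_le_sum fun i hi => ?_
    rw [← add_div]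
    refine div_le_div_of_nonneg_right ?_ (abs_nonneg _)
    linarith
  refine ⟨zz, ⟨?_, ?_, ?_, ?_, ?_, ?_, ?_, ?_, ?_, ?_⟩⟩
  · -- rest
    exact fun j hj ψ hψ => (hz j hj ψ hψ).1
  · -- sm
    intro j hj ψ hψ i hi
    have hiL := hi.trans_le hj
    have habs := hab i hiL
    have hmem := (hz j hj ψ hψ).2.1
    have hn := hnorm j hj ψ hψ i hi
    have hf := hform j hj ψ hψ i hi
    have hDs := D_smallA hA hmem hiL
    refine ⟨hn.trans (div_le_div_of_nonneg_right (by linarith) habs.le), ha3 i hiL, ?_, ?_⟩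
    · have e1 : zz j ψ i + 2 * π / a i = (2 * π / ((a i : ℝ) : ℂ)) * Complex.I * D i (zz j ψ) := by
        conv_lhs => rw [hf]
        push_cast
        ring
      rw [e1, norm_mul, norm_mul, Complex.norm_I, mul_one, norm_coef]
      calc 2 * π / |(a i : ℝ)| * ‖D i (zz j ψ)‖
          ≤ 2 * π / |(a i : ℝ)| * (Λ * (2 * π * (1 + B) / |(a i : ℝ)|)) := by
            refine mul_le_mul_of_nonneg_left (hDs.trans ?_) (by positivity)
            exact mul_le_mul_of_nonneg_left hn hΛ0.le
        _ = 4 * π ^ 2 * Λ * (1 + B) / (a i : ℝ) ^ 2 := by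
            rw [← sq_abs (a i : ℝ)]
            field_simp
            ring
        _ ≤ C / (a i : ℝ) ^ 2 := div_le_div_of_nonneg_right (by linarith) (sq_nonneg _)
    · have h1 : 2 * π * Λ / |(a i : ℝ)| ≤ 1 := by
        rw [div_le_one habs]
        have h2 := ha i hiL
        have h3 : 2 * π * Λ = 8 * π * B / R := by rw [hΛ]; ring
        rw [h3]
        refine le_trans ?_ h2
        refine div_le_div_of_nonneg_right ?_ hR.le
        nlinarith [mul_pos hπ hB]
      have h2 : 2 * π * Λ ^ 2 / |(a i : ℝ)| ≤ c / 4 := by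
        rw [div_le_iff₀ habs]
        have h3 : 8 * π * Λ ^ 2 / c ≤ |(a i : ℝ)| := by
          have := haM i hiL
          linarith
        rw [div_le_iff₀ hc] at h3
        nlinarith
      have key := im_bd hc hΛ0.le (ha0 i hiL) hf hDs (D_re hP hmem hiL) h1 h2
      refine le_trans ?_ key
      have hsq : 0 < (a i : ℝ) ^ 2 := by
        have := ha0 i hiL
        positivity
      refine one_div_le_one_div_of_le (by positivity) ?_
      exact mul_le_mul_of_nonneg_right (by linarith) hsq.le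
  · -- crit
    exact fun j hj ψ hψ => (hz j hj ψ hψ).2.2
  · -- uniq
    exact huniq
  · -- dep
    intro j hj ψ hψ ψ' hψ' h
    obtain ⟨h3, h4, h5⟩ := hz j hj ψ hψ
    exact huniq j hj ψ' hψ' _ h4 (fun i hi => by rw [h3 i hi, h i hi]) h5
  · -- der
    intro j hj ψ hψ i hji hi
    obtain ⟨ζ, z1, z2, z3⟩ := hpath j hj ψ hψ i hji hi
    have hup : Function.update ψ i (ψ i) = ψ := Function.update_eq_self _ _
    obtain ⟨h3, h4, h5⟩ := hz j hj ψ hψ
    have d1 := chain (f := S) (R := R) (y := fun w => zz j (Function.update ψ i w)) (w₀ := ψ i)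
      (fun ψ ψ' h => (hP.dep ψ ψ' h).1) hP.an (by
        show zz j (Function.update ψ i (ψ i)) ∈ Bx L R
        rw [hup]; exact hBxR _ h4) z1
    simp only [hup] at d1
    have d2 : ∑ l ∈ range L, ζ l * deriv (fun w => S (Function.update (zz j ψ) l w)) (zz j ψ l) =
        ∑ l ∈ range L, ζ l * D l (zz j ψ) := by
      refine Finset.sum_congr rfl fun l hl => ?_
      rw [(hP.der _ (hBxR _ h4) l (Finset.mem_range.1 hl)).deriv]
    rw [d2, sum_zeta hi hji z2] at d1
    have d3 : HasDerivAt (fun w => ∑ l ∈ range j, (Complex.I * a l *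
        zz j (Function.update ψ i w) l ^ 2 / (4 * π) +
        Complex.I * zz j (Function.update ψ i w) l))
        (∑ l ∈ range j, (Complex.I * a l * (2 * zz j ψ l * ζ l) / (4 * π) +
          Complex.I * ζ l)) (ψ i) := by
      refine HasDerivAt.fun_sum fun l hl => ?_
      have hl' := (Finset.mem_range.1 hl).trans_le hj
      have z4 := z1 l hl'
      have z5 := z4.pow 2
      simp only [hup] at z5
      have z6 := ((z5.const_mul (Complex.I * a l)).div_const (4 * π)).add
        (z4.const_mul Complex.I)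
      refine z6.congr_deriv ?_
      norm_num
    have d4 := d1.add d3
    refine d4.congr_deriv ?_
    rw [add_assoc, ← Finset.sum_add_distrib]
    have d5 : ∑ l ∈ range j, (ζ l * D l (zz j ψ) + (Complex.I * a l * (2 * zz j ψ l * ζ l) /
        (4 * π) + Complex.I * ζ l)) = 0 := by
      refine Finset.sum_eq_zero fun l hl => ?_
      have h6 := h5 l (Finset.mem_range.1 hl)
      have h7 : ζ l * D l (zz j ψ) + (Complex.I * a l * (2 * zz j ψ l * ζ l) /
        (4 * π) + Complex.I * ζ l) = ζ l * (Complex.I * a l * zz j ψ l / (2 * π) + Complex.I +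
          D l (zz j ψ)) := by
        have hπ' : (π : ℂ) ≠ 0 := by exact_mod_cast hπ.ne'
        field_simp
        ring
      rw [h7, h6, mul_zero]
    rw [d5, add_zero]
  · -- conc
    intro j hj ψ hψ i hji hi
    obtain ⟨ζ, z1, z2, z3⟩ := hpath j hj ψ hψ i hji hi
    have hup : Function.update ψ i (ψ i) = ψ := Function.update_eq_self _ _
    obtain ⟨h3, h4, h5⟩ := hz j hj ψ hψ
    have hdep : ∀ ψ ψ' : ℕ → ℂ, (∀ i < L, ψ i = ψ' i) → D i ψ = D i ψ' := fun ψ ψ' h =>
      (hP.dep ψ ψ' h).2 i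
    have d1 := chain (f := D i) (R := R) (y := fun w => zz j (Function.update ψ i w))
      (w₀ := ψ i) hdep (hP.dan i hi) (by
        show zz j (Function.update ψ i (ψ i)) ∈ Bx L R
        rw [hup]; exact hBxR _ h4) z1
    simp only [hup] at d1
    rw [d1.deriv, sum_zeta hi hji z2, Complex.add_re]
    have e1 := hP.conc _ (hBxR _ h4) i hi
    have e2 : ‖∑ l ∈ range j, ζ l *
        deriv (fun w => D i (Function.update (zz j ψ) l w)) (zz j ψ l)‖ ≤ c / 2 := by
      refine (norm_sum_le _ _).trans ?_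
      have e3 : ∀ l ∈ range j, ‖ζ l *
          deriv (fun w => D i (Function.update (zz j ψ) l w)) (zz j ψ l)‖ ≤
          2 * ‖deriv (fun w => D i (Function.update (zz j ψ) l w)) (zz j ψ l)‖ := by
        intro l hl
        have hlj := Finset.mem_range.1 hl
        have hlL := hlj.trans_le hj
        have e5 := z3 l hlj
        rw [norm_mul]
        refine mul_le_mul_of_nonneg_right (e5.trans ?_) (norm_nonneg _)
        have h3 := ha l hlL
        rw [div_le_iff₀ hR] at h3
        rw [div_le_iff₀ (mul_pos hR (hab l hlL))]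
        nlinarith
      have e4 : ∑ l ∈ range j, ‖deriv (fun w => D i (Function.update (zz j ψ) l w)) (zz j ψ l)‖ ≤
          c / 4 := by
        refine le_trans ?_ (hA.off _ (hBxR _ h4) i hi)
        refine Finset.sum_le_sum_of_subset_of_nonneg (fun l hl => ?_) fun l _ _ => norm_nonneg _
        have hlj := Finset.mem_range.1 hl
        rw [Finset.mem_erase, Finset.mem_range]
        exact ⟨by omega, by omega⟩
      refine (Finset.sum_le_sum e3).trans ?_
      rw [← Finset.mul_sum]
      linarith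
    have e9 := (Complex.abs_re_le_norm _).trans e2
    have e10 := (abs_le.1 e9).2
    linarith
  · -- ev
    intro j hj ψ hψ i hji hi
    obtain ⟨h3, h4, h5⟩ := hz j hj ψ hψ
    have hzi : zz j ψ i = ψ i := h3 i hji
    have hψ' : Function.update ψ i (-ψ i) ∈ Bx L (R / 2) := up_mem hψ (Rc_neg (hψ i hi))
    have hy : Function.update (zz j ψ) i (-zz j ψ i) ∈ Bx L (R / 2) :=
      up_mem h4 (Rc_neg (h4 i hi))
    have e1 : Function.update (zz j ψ) i (-zz j ψ i) = zz j (Function.update ψ i (-ψ i)) := by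
      refine huniq j hj _ hψ' _ hy (fun k hk => ?_) fun k hk => ?_
      · by_cases hki : k = i
        · subst hki
          simp [hzi]
        · rw [Function.update_of_ne hki, Function.update_of_ne hki]
          exact h3 k hk
      · have hki : k ≠ i := by omega
        rw [D_ev hP (hBxR _ h4) hi (hk.trans_le hj) hki, Function.update_of_ne hki]
        exact h5 k hk
    rw [← e1]
    unfold Uj
    rw [hP.ev _ (hBxR _ h4) i hi]
    congr 1
    refine Finset.sum_congr rfl fun k hk => ?_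
    have hki : k ≠ i := by
      have := Finset.mem_range.1 hk
      omega
    rw [Function.update_of_ne hki]
  · -- close
    intro j hj ψ hψ
    have e1 := hclose j hj ψ hψ
    refine ⟨e1, ?_⟩
    have hψ₀m : (fun i => if i < j then 0 else ψ i : ℕ → ℂ) ∈ Bx L (R / 2) := by
      intro i hi
      by_cases hij : i < j
      · simp only [hij, if_true]
        exact Rc_norm (by rw [norm_zero]; linarith)
      · simp only [hij, if_false]
        exact hψ i hi
    have e2 := hP.pos _ (hBxR _ hψ₀m)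
    have e3 : ∑ i ∈ range j, C / |(a i : ℝ)| ≤ p₀ * L / 2 := by
      have e4 : ∀ i ∈ range j, C / |(a i : ℝ)| ≤ C / M := fun i hi =>
        div_le_div_of_nonneg_left hC0.le hM0 (haM i ((Finset.mem_range.1 hi).trans_le hj))
      refine (Finset.sum_le_sum e4).trans ?_
      rw [Finset.sum_const, Finset.card_range, nsmul_eq_mul]
      have e6 : (j : ℝ) ≤ L := by exact_mod_cast hj
      have e7 : 2 * C / p₀ ≤ M := by linarith
      have e8 : C / M ≤ p₀ / 2 := by
        rw [div_le_iff₀ hp] at e7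
        rw [div_le_iff₀ hM0]
        linarith
      have e9 : 0 ≤ C / M := by positivity
      calc (j : ℝ) * (C / M) ≤ L * (C / M) := mul_le_mul_of_nonneg_right e6 e9
        _ ≤ L * (p₀ / 2) := mul_le_mul_of_nonneg_left e8 (Nat.cast_nonneg _)
        _ = p₀ * L / 2 := by ring
    have e5 := (Complex.abs_re_le_norm _).trans (e1.trans e3)
    rw [Complex.sub_re] at e5
    have e6 := (abs_le.1 e5).1
    linarith
  · -- step
    intro j hj ψ hψ
    obtain ⟨h3, h4, h5⟩ := hz (j + 1) hj ψ hψ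
    set y := zz (j + 1) ψ with hy
    have hup : Function.update ψ j (y j) ∈ Bx L (R / 2) := up_mem hψ (h4 j hj)
    have e1 : y = zz j (Function.update ψ j (y j)) := by
      refine huniq j hj.le _ hup y h4 (fun i hi => ?_) fun i hi => h5 i (by omega)
      by_cases hij : i = j
      · subst hij
        rw [Function.update_self]
      · rw [Function.update_of_ne hij]
        exact h3 i (by omega)
    refine ⟨?_, e1.symm⟩
    show Uj S a (j + 1) y = qq (a j) (fun w => Uj S a j (zz j (Function.update ψ j w))) (y j)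
    unfold qq
    beta_reduce
    rw [← e1]
    unfold Uj
    rw [Finset.sum_range_succ]
    ring

end Pool.Agent.Y68.CH
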