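import Pool.Agent.Y472.H.Defs
import Pool.Agent.Y784.CB.CR

/-!
# Critical points with parameters, absolute constants: existence and derivatives (job CB3-H-CRA)

Light edit of the files `Pool/Agent/Y784/CB/CR2.lean`, `CR3.lean`, `CR4.lean` of helper784.
-/

set_option autoImplicit false

namespace Pool.Agent.Y68.CH

open Finset Filter Topology Metric
open Pool.Agent.W711.HT Pool.Agent.Y472
open Pool.Agent.Y784.CB (fp_deriv Rc_eq Rc_open Rc_convex bx_eq bx_open bx_convex Rc_add Rc_norm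
  Rc_mono Rc_neg rs rs_ex ex_rs ex_mem rs_mem Bx_mono rs_update up_mem fderiv_bd lip_bd S_rs D_rs
  Cr cr_iff two_pi_div_le norm_coef part fderiv_sum chain part_bd D_zero D_ev D_re sum_zeta im_bd)
open scoped Real

section

variable {L : ℕ} {R c B p₀ B' : ℝ} {S : (ℕ → ℂ) → ℂ} {D : ℕ → (ℕ → ℂ) → ℂ}

/-- the derivatives are Lipschitz -/
theorem D_lipA (hA : PotA L R c B p₀ B' S D) {ψ ψ' : ℕ → ℂ} (h : ψ ∈ Bx L (R / 2))
    (h' : ψ' ∈ Bx L (R / 2)) {l : ℕ} (hl : l < L) :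
    ‖D l ψ' - D l ψ‖ ≤ 4 * B / R * ‖rs L ψ' - rs L ψ‖ := by
  have hP := hA.pot
  have h1 := lip_bd hP.hR.1 hA.hB.le (hP.dan l hl) (fun x hx => hA.dbd _ (ex_mem hx) l hl)
    (rs_mem h) (rs_mem h')
  simpa [D_rs hP] using h1

/-- uniqueness and Lipschitz dependence -/
theorem crit_diffA (hA : PotA L R c B p₀ B' S D) {a : ℕ → ℤ} {j : ℕ} (hj : j ≤ L)
    (ha : ∀ i < L, 32 * π * B / R ≤ |(a i : ℝ)|) (ha0 : ∀ i < L, (a i : ℝ) ≠ 0) {y y' : ℕ → ℂ}
    (hy : y ∈ Bx L (R / 2)) (hy' : y' ∈ Bx L (R / 2)) (h : Cr D a j y) (h' : Cr D a j y') {δ : ℝ}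
    (hδ : 0 ≤ δ) (hd : ∀ i, j ≤ i → i < L → ‖y' i - y i‖ ≤ δ) :
    ‖rs L y' - rs L y‖ ≤ δ ∧ ∀ i < j, ‖y' i - y i‖ ≤ 8 * π * B / (R * |(a i : ℝ)|) * δ := by
  have hP := hA.pot
  have hR := hP.hR.1
  have hB := hA.hB
  have hπ := Real.pi_pos
  set n : ℝ := ‖rs L y' - rs L y‖ with hn
  have h1 : ∀ i < j, ‖y' i - y i‖ ≤ 8 * π * B / (R * |(a i : ℝ)|) * n := by
    intro i hi
    have hiL := hi.trans_le hj
    have ha1 := ha0 i hiL
    have e1 := (cr_iff ha1).1 (by simpa using h i hi)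
    have e2 := (cr_iff ha1).1 (by simpa using h' i hi)
    have e3 : y' i - y i = (2 * π / (a i : ℝ)) * Complex.I * (D i y' - D i y) := by
      rw [e1, e2]; ring
    have habs : 0 < |(a i : ℝ)| := abs_pos.2 ha1
    rw [e3, norm_mul, norm_mul, Complex.norm_I, mul_one, norm_div, norm_mul, Complex.norm_real,
      Complex.norm_real, Real.norm_eq_abs, Real.norm_eq_abs, abs_of_pos hπ, Complex.norm_ofNat]
    refine (mul_le_mul_of_nonneg_left (D_lipA hA hy hy' hiL) (by positivity)).trans (le_of_eq ?_)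
    rw [← hn]
    field_simp
    ring
  have h2 : ∀ i < j, ‖y' i - y i‖ ≤ 1 / 2 * n := by
    intro i hi
    refine (h1 i hi).trans (mul_le_mul_of_nonneg_right ?_ (norm_nonneg _))
    have habs : 0 < |(a i : ℝ)| := abs_pos.2 (ha0 i (hi.trans_le hj))
    rw [div_le_iff₀ (by positivity)]
    have h3 := ha i (hi.trans_le hj)
    rw [div_le_iff₀ hR] at h3
    nlinarith
  have h3 : n ≤ max δ (1 / 2 * n) := by
    rw [hn, pi_norm_le_iff_of_nonneg (le_max_of_le_left hδ)]
    intro i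
    show ‖y' i - y i‖ ≤ _
    by_cases hi : i.1 < j
    · exact (h2 i hi).trans (le_max_right _ _)
    · exact (hd i (not_lt.1 hi) i.2).trans (le_max_left _ _)
  have h4 : n ≤ δ := by
    rcases le_max_iff.1 h3 with h5 | h5
    · exact h5
    · have : 0 ≤ n := norm_nonneg _
      linarith
  refine ⟨h4, fun i hi => (h1 i hi).trans (mul_le_mul_of_nonneg_left h4 ?_)⟩
  have habs : 0 < |(a i : ℝ)| := abs_pos.2 (ha0 i (hi.trans_le hj))
  positivity

/-- uniqueness -/
theorem crit_uniqA (hA : PotA L R c B p₀ B' S D) {a : ℕ → ℤ} {j : ℕ} (hj : j ≤ L)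
    (ha : ∀ i < L, 32 * π * B / R ≤ |(a i : ℝ)|) (ha0 : ∀ i < L, (a i : ℝ) ≠ 0) {y y' : ℕ → ℂ}
    (hy : y ∈ Bx L (R / 2)) (hy' : y' ∈ Bx L (R / 2)) (h : Cr D a j y) (h' : Cr D a j y')
    (hd : ∀ i, j ≤ i → y' i = y i) : y' = y := by
  have hP := hA.pot
  have h1 := (crit_diffA hA hj ha ha0 hy hy' h h' le_rfl
    (fun i hi _ => by rw [hd i hi, sub_self, norm_zero])).1
  have h2 : rs L y' - rs L y = 0 := norm_le_zero_iff.1 h1
  funext i
  by_cases hi : i < L
  · have := congrFun h2 ⟨i, hi⟩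
    exact sub_eq_zero.1 this
  · exact hd i (hj.trans (not_lt.1 hi))

/-- existence -/
theorem crit_exA (hA : PotA L R c B p₀ B' S D) {a : ℕ → ℤ} {j : ℕ} (hj : j ≤ L)
    (ha : ∀ i < L, 32 * π * B / R ≤ |(a i : ℝ)|) (ha0 : ∀ i < L, (a i : ℝ) ≠ 0)
    (ha2 : ∀ i < L, 2 * π * (1 + B) / |(a i : ℝ)| ≤ R / 4) {ψ : ℕ → ℂ} (hψ : ψ ∈ Bx L (R / 2)) :
    ∃ y : ℕ → ℂ, (∀ i, j ≤ i → y i = ψ i) ∧ y ∈ Bx L (R / 2) ∧ Cr D a j y := by
  have hP := hA.pot
  classical
  have hR := hP.hR.1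
  have hB := hA.hB
  have hπ := Real.pi_pos
  set s : Set (Fin L → ℂ) := {x | ∀ i : Fin L, (i.1 < j → ‖x i‖ ≤ R / 4) ∧
    (j ≤ i.1 → x i = ψ i)} with hs
  have hsc : IsClosed s := by
    have : s = ⋂ i : Fin L, ({x | i.1 < j → ‖x i‖ ≤ R / 4} ∩ {x | j ≤ i.1 → x i = ψ i}) := by
      ext x
      simp [hs]
    rw [this]
    refine isClosed_iInter fun i => IsClosed.inter ?_ ?_
    · by_cases hi : i.1 < j
      · simp only [hi, true_imp_iff]
        exact isClosed_le (continuous_apply i).norm continuous_const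
      · simp [hi]
    · by_cases hi : j ≤ i.1
      · simp only [hi, true_imp_iff]
        exact isClosed_eq (continuous_apply i) continuous_const
      · simp [hi]
  have hsb : ∀ x ∈ s, x ∈ bx L (R / 2) := by
    intro x hx i
    by_cases hi : i.1 < j
    · exact Rc_norm (((hx i).1 hi).trans_lt (by linarith))
    · rw [(hx i).2 (not_lt.1 hi)]
      exact hψ i i.2
  have hsb' : ∀ x ∈ s, ex L x ∈ Bx L (R / 2) := fun x hx => ex_mem (hsb x hx)
  set T : (Fin L → ℂ) → Fin L → ℂ := fun x i =>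
    if i.1 < j then -(2 * π / (a i : ℝ)) * (1 - Complex.I * D i (ex L x)) else ψ i with hT
  have hmaps : Set.MapsTo T s s := by
    intro x hx i
    refine ⟨fun hi => ?_, fun hi => ?_⟩
    · simp only [hT, hi, if_true]
      rw [norm_mul, norm_neg, norm_coef]
      have h1 : ‖1 - Complex.I * D i (ex L x)‖ ≤ 1 + B := by
        refine (norm_sub_le _ _).trans ?_
        rw [norm_mul, Complex.norm_I, one_mul, norm_one]
        have := hA.dbd _ (Bx_mono (by linarith) (hsb' x hx)) i i.2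
        linarith
      refine (mul_le_mul_of_nonneg_left h1 (by positivity)).trans ?_
      have := ha2 i i.2
      rw [div_mul_eq_mul_div]
      exact this
    · simp only [hT, not_lt.2 hi, if_false]
  have hcon : ContractingWith (1 / 2) (hmaps.restrict T s s) := by
    refine ⟨by
      rw [← NNReal.coe_lt_coe]; norm_num, LipschitzWith.of_dist_le_mul fun x y => ?_⟩
    have hx := x.2
    have hy := y.2
    rw [Subtype.dist_eq, Subtype.dist_eq]
    show dist (T x.1) (T y.1) ≤ _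
    rw [dist_pi_le_iff (by positivity)]
    intro i
    by_cases hi : i.1 < j
    · simp only [hT, hi, if_true]
      rw [dist_eq_norm]
      have e : -(2 * π / (a i : ℝ)) * (1 - Complex.I * D i (ex L x.1)) -
          -(2 * π / (a i : ℝ)) * (1 - Complex.I * D i (ex L y.1)) =
          (2 * π / (a i : ℝ)) * Complex.I * (D i (ex L x.1) - D i (ex L y.1)) := by ring
      have e' := D_lipA hA (hsb' _ hy) (hsb' _ hx) i.2
      rw [rs_ex, rs_ex] at e'
      have habs : 0 < |(a i : ℝ)| := abs_pos.2 (ha0 i i.2)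
      have h3 := ha i i.2
      rw [div_le_iff₀ hR] at h3
      rw [e, norm_mul, norm_mul, Complex.norm_I, mul_one, norm_coef]
      calc 2 * π / |(a i : ℝ)| * ‖D i (ex L x.1) - D i (ex L y.1)‖
          ≤ 2 * π / |(a i : ℝ)| * (4 * B / R * ‖x.1 - y.1‖) :=
            mul_le_mul_of_nonneg_left e' (by positivity)
        _ = (8 * π * B / (R * |(a i : ℝ)|)) * ‖x.1 - y.1‖ := by field_simp; ring
        _ ≤ 1 / 2 * ‖x.1 - y.1‖ := by
            refine mul_le_mul_of_nonneg_right ?_ (norm_nonneg _)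
            rw [div_le_iff₀ (by positivity)]
            nlinarith
        _ = _ := by rw [dist_eq_norm]; norm_num
    · simp only [hT, hi, if_false, dist_self]
      positivity
  have hx0 : (fun i : Fin L => if i.1 < j then 0 else ψ i) ∈ s := by
    intro i
    refine ⟨fun hi => ?_, fun hi => ?_⟩
    · simp only [hi, if_true, norm_zero]; positivity
    · simp only [not_lt.2 hi, if_false]
  obtain ⟨x, hxs, hfix, -⟩ := hcon.exists_fixedPoint' hsc.isComplete hmaps hx0 (edist_ne_top _ _)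
  refine ⟨fun i => if h : i < L then x ⟨i, h⟩ else ψ i, fun i hi => ?_, fun i hi => ?_,
    fun i hi => ?_⟩
  · by_cases h : i < L
    · simp only [h, dif_pos]
      exact (hxs ⟨i, h⟩).2 hi
    · simp only [h, dif_neg, not_false_eq_true]
  · simp only [hi, dif_pos]
    exact hsb x hxs ⟨i, hi⟩
  · have hiL := hi.trans_le hj
    set y : ℕ → ℂ := fun i => if h : i < L then x ⟨i, h⟩ else ψ i with hy
    have e1 : D i y = D i (ex L x) := by
      refine (hP.dep _ _ fun k hk => ?_).2 i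
      simp [hy, ex, hk]
    have e2 : y i = x ⟨i, hiL⟩ := by simp [hy, hiL]
    have e3 : x ⟨i, hiL⟩ = T x ⟨i, hiL⟩ := congrFun hfix.symm ⟨i, hiL⟩
    have e4 : T x ⟨i, hiL⟩ = -(2 * π / (a i : ℝ)) * (1 - Complex.I * D i (ex L x)) := by
      simp only [hT, hi, if_true]
    have e5 := (cr_iff (ha0 i hiL)).2 (e3.trans e4)
    rw [e1, e2]
    simpa using e5

theorem D_smallA (hA : PotA L R c B p₀ B' S D) {ψ : ℕ → ℂ} (hψ : ψ ∈ Bx L (R / 2)) {i : ℕ}
    (hi : i < L) : ‖D i ψ‖ ≤ 4 * B / R * ‖ψ i‖ := by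
  have hP := hA.pot
  have hR := hP.hR.1
  have hB := hA.hB
  have h0 : Function.update ψ i 0 ∈ Bx L (R / 2) :=
    up_mem hψ (Rc_norm (by rw [norm_zero]; linarith))
  have h1 := D_lipA hA h0 hψ hi
  rw [D_zero hP (Bx_mono (by linarith) h0) hi (by simp), sub_zero] at h1
  refine h1.trans (mul_le_mul_of_nonneg_left ?_ (by positivity))
  rw [pi_norm_le_iff_of_nonneg (norm_nonneg _)]
  intro k
  show ‖ψ k - Function.update ψ i 0 k‖ ≤ ‖ψ i‖
  by_cases hk : k.1 = i
  · rw [hk]; simp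
  · rw [Function.update_of_ne hk]; simp

theorem path_derivA (hA : PotA L R c B p₀ B' S D) {a : ℕ → ℤ} {j : ℕ} (hj : j ≤ L)
    (ha : ∀ i < L, 32 * π * B / R ≤ |(a i : ℝ)|) (ha0 : ∀ i < L, (a i : ℝ) ≠ 0) {ψ : ℕ → ℂ}
    {i : ℕ} (hi : i < L) (hji : j ≤ i) {y : ℂ → ℕ → ℂ} (hy1 : ∀ᶠ w in 𝓝 (ψ i),
      (∀ k, j ≤ k → y w k = Function.update ψ i w k) ∧ y w ∈ Bx L (R / 2) ∧ Cr D a j (y w)) :
    ∃ ζ : ℕ → ℂ, (∀ l < L, HasDerivAt (fun w => y w l) (ζ l) (ψ i)) ∧
      (∀ k, j ≤ k → k < L → ζ k = if k = i then 1 else 0) ∧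
      ∀ k < j, ‖ζ k‖ ≤ 16 * π * B / (R * |(a k : ℝ)|) := by
  have hP := hA.pot
  classical
  have hR := hP.hR.1
  have hB := hA.hB
  have hπ := Real.pi_pos
  obtain ⟨h00, h01, h02⟩ := hy1.self_of_nhds
  set x₀ : Fin L → ℂ := rs L (y (ψ i)) with hx₀
  set G : (Fin L → ℂ) → Fin L → ℂ := fun x k =>
    if k.1 < j then -(2 * π / (a k : ℝ)) * (1 - Complex.I * D k (ex L x)) else 0 with hG
  set p : ℂ → Fin L → ℂ := fun w k => if k.1 < j then 0 else Function.update ψ i w k with hp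
  set G' : (Fin L → ℂ) →L[ℂ] (Fin L → ℂ) := ContinuousLinearMap.pi fun k =>
    if k.1 < j then (2 * π / (a k : ℝ) * Complex.I : ℂ) •
      fderiv ℂ (fun x => D k (ex L x)) x₀ else 0 with hG'
  have hx₀m : x₀ ∈ bx L (R / 2) := rs_mem h01
  have hx₀R : x₀ ∈ bx L R := fun k => Rc_mono (by linarith) (hx₀m k)
  have f1 : ∀ᶠ w in 𝓝 (ψ i), rs L (y w) = G (rs L (y w)) + p w := by
    filter_upwards [hy1] with w hw
    obtain ⟨h1, -, h3⟩ := hw
    funext k
    show y w k = G (rs L (y w)) k + p w k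
    by_cases hk : k.1 < j
    · simp only [hG, hp, hk, if_true, add_zero, D_rs hP]
      exact (cr_iff (ha0 k k.2)).1 (by simpa using h3 k hk)
    · simp only [hG, hp, hk, if_false, zero_add]
      exact h1 k (not_lt.1 hk)
  have f2 : HasFDerivAt G G' x₀ := by
    rw [hasFDerivAt_pi']
    intro k
    by_cases hk : k.1 < j
    · have e1 : HasFDerivAt (fun x => D k (ex L x)) (fderiv ℂ (fun x => D k (ex L x)) x₀) x₀ :=
        ((hP.dan k k.2).differentiableAt ((bx_open L R).mem_nhds hx₀R)).hasFDerivAt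
      have e2 := (e1.const_mul (2 * π / (a k : ℝ) * Complex.I : ℂ)).const_add
        (-(2 * π / (a k : ℝ)) : ℂ)
      have e3 : (ContinuousLinearMap.proj k).comp G' = (2 * π / (a k : ℝ) * Complex.I : ℂ) •
          fderiv ℂ (fun x => D k (ex L x)) x₀ := by
        ext v
        simp [hG', hk]
      rw [e3]
      refine e2.congr_of_eventuallyEq (Eventually.of_forall fun x => ?_)
      simp only [hG, hk, if_true]
      ring
    · have e3 : (ContinuousLinearMap.proj k).comp G' = 0 := by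
        ext v
        simp [hG', hk]
      rw [e3]
      refine (hasFDerivAt_const (0 : ℂ) x₀).congr_of_eventuallyEq
        (Eventually.of_forall fun x => ?_)
      simp only [hG, hk, if_false]
  set p' : Fin L → ℂ := fun k => if k.1 = i then 1 else 0 with hp'
  have f3 : HasDerivAt p p' (ψ i) := by
    rw [hasDerivAt_pi]
    intro k
    by_cases hk : k.1 = i
    · have e : ∀ w, p w k = w := by
        intro w
        simp only [hp, hk, not_lt.2 hji, if_false, Function.update_self]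
      simp only [e, hp', hk, if_true]
      exact hasDerivAt_id _
    · have e : ∀ w, p w k = if k.1 < j then 0 else ψ k := by
        intro w
        simp only [hp, Function.update_of_ne hk]
      simp only [e, hp', hk, if_false]
      exact hasDerivAt_const _ _
  have fk : ∀ (k : Fin L) (v : Fin L → ℂ), k.1 < j →
      ‖G' v k‖ ≤ 8 * π * B / (R * |(a k : ℝ)|) * ‖v‖ := by
    intro k v hk
    have e1 : G' v k = (2 * π / (a k : ℝ) * Complex.I : ℂ) *
        fderiv ℂ (fun x => D k (ex L x)) x₀ v := by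
      simp [hG', hk]
    have e2 := fderiv_bd hR hB.le (hP.dan k k.2) (fun x hx => hA.dbd _ (ex_mem hx) k k.2) hx₀m
    have e3 := (fderiv ℂ (fun x => D k (ex L x)) x₀).le_opNorm v
    rw [e1, norm_mul, norm_mul, Complex.norm_I, mul_one, norm_coef]
    have habs : 0 < |(a k : ℝ)| := abs_pos.2 (ha0 k k.2)
    calc 2 * π / |(a k : ℝ)| * ‖fderiv ℂ (fun x => D k (ex L x)) x₀ v‖
        ≤ 2 * π / |(a k : ℝ)| * (4 * B / R * ‖v‖) := by
          refine mul_le_mul_of_nonneg_left (e3.trans ?_) (by positivity)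
          exact mul_le_mul_of_nonneg_right e2 (norm_nonneg _)
      _ = 8 * π * B / (R * |(a k : ℝ)|) * ‖v‖ := by field_simp; ring
  have f4 : ‖G'‖ ≤ 1 / 2 := by
    refine ContinuousLinearMap.opNorm_le_bound _ (by norm_num) fun v => ?_
    rw [pi_norm_le_iff_of_nonneg (by positivity)]
    intro k
    by_cases hk : k.1 < j
    · refine (fk k v hk).trans (mul_le_mul_of_nonneg_right ?_ (norm_nonneg _))
      have habs : 0 < |(a k : ℝ)| := abs_pos.2 (ha0 k k.2)
      have h3 := ha k k.2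
      rw [div_le_iff₀ hR] at h3
      rw [div_le_iff₀ (by positivity)]
      nlinarith
    · have : G' v k = 0 := by simp [hG', hk]
      rw [this, norm_zero]; positivity
  have f5 : ∀ᶠ w in 𝓝 (ψ i), ‖rs L (y w) - rs L (y (ψ i))‖ ≤ 1 * ‖w - ψ i‖ := by
    filter_upwards [hy1] with w hw
    obtain ⟨h1, h2, h3⟩ := hw
    rw [one_mul]
    refine (crit_diffA hA hj ha ha0 h01 h2 h02 h3 (norm_nonneg _) fun k hk hkL => ?_).1
    rw [h1 k hk, h00 k hk, Function.update_eq_self]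
    by_cases hki : k = i
    · subst hki
      rw [Function.update_self]
    · rw [Function.update_of_ne hki, sub_self, norm_zero]
      exact norm_nonneg _
  obtain ⟨ζ, hζ1, hζ2⟩ := fp_deriv (y := fun w => rs L (y w)) (G := G) (p := p) f1 f2 f3 f4 f5
  have hζn : ‖ζ‖ ≤ 2 := by
    have e1 : ‖ζ‖ ≤ ‖G' ζ‖ + ‖p'‖ := by
      conv_lhs => rw [hζ2]
      exact norm_add_le _ _
    have e2 : ‖G' ζ‖ ≤ 1 / 2 * ‖ζ‖ := (G'.le_opNorm ζ).trans
      (mul_le_mul_of_nonneg_right f4 (norm_nonneg _))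
    have e3 : ‖p'‖ ≤ 1 := by
      rw [pi_norm_le_iff_of_nonneg (by norm_num)]
      intro k
      by_cases hk : k.1 = i
      · simp [hp', hk]
      · simp [hp', hk]
    linarith
  refine ⟨fun k => if h : k < L then ζ ⟨k, h⟩ else 0, fun l hl => ?_, fun k hk hkL => ?_,
    fun k hk => ?_⟩
  · simp only [hl, dif_pos]
    exact hasDerivAt_pi.1 hζ1 ⟨l, hl⟩
  · simp only [hkL, dif_pos]
    have e1 := congrFun hζ2 ⟨k, hkL⟩
    have e2 : G' ζ ⟨k, hkL⟩ = 0 := by simp [hG', not_lt.2 hk]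
    rw [e1, Pi.add_apply, e2, zero_add]
  · have hkL := hk.trans_le hj
    simp only [hkL, dif_pos]
    have e1 := congrFun hζ2 ⟨k, hkL⟩
    have e2 : p' ⟨k, hkL⟩ = 0 := by
      have : k ≠ i := by omega
      simp [hp', this]
    rw [e1, Pi.add_apply, e2, add_zero]
    refine (fk ⟨k, hkL⟩ ζ hk).trans ?_
    have habs : 0 < |(a k : ℝ)| := abs_pos.2 (ha0 k hkL)
    calc 8 * π * B / (R * |(a k : ℝ)|) * ‖ζ‖ ≤ 8 * π * B / (R * |(a k : ℝ)|) * 2 :=
          mul_le_mul_of_nonneg_left hζn (by positivity)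
      _ = 16 * π * B / (R * |(a k : ℝ)|) := by ring

end

end Pool.Agent.Y68.CH
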